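import Mathlib

/-!
# Clique minors and substitution (helper553)

Clique minors indexed by types, clique inflations of graphs, and the substitution theorem: if
`K_{χ(P)}` is a minor of every piece `P` of a substitution with quotient `Q`, then clique minors of
the clique inflation of `Q` with the cliques `K_{χ(P)}` lift to the substitution, and colourings
lift as well.
-/

set_option autoImplicit false

namespace Pool.Agent.R553.HW

open Set

/-- Clique minors indexed by a type. -/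
def CMt {V : Type} (G : SimpleGraph V) (ι : Type) : Prop :=
  ∃ f : ι → Set V,
    (∀ i, (G.induce (f i)).Connected) ∧
    (∀ i j, i ≠ j → Disjoint (f i) (f j)) ∧
    (∀ i j, i ≠ j → ∃ u ∈ f i, ∃ v ∈ f j, G.Adj u v)

/-- Hadwiger's conjecture for `G`. -/
def Had {V : Type} (G : SimpleGraph V) : Prop := ∀ k : ℕ, ¬ G.Colorable k → CMt G (Fin (k + 1))

/-- The off-by-one form for `G`. -/
def Obo {V : Type} (G : SimpleGraph V) : Prop := ∀ k : ℕ, ¬ G.Colorable k → CMt G (Fin k)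

/-- `G'` is a clique inflation of `G`. -/
def IsInfl {V V' : Type} (G : SimpleGraph V) (G' : SimpleGraph V') (π : V' → V) : Prop :=
  ∀ x y, x ≠ y → (G'.Adj x y ↔ (π x = π y ∨ G.Adj (π x) (π y)))

theorem CMt_emb {V ι κ : Type} {G : SimpleGraph V} (h : CMt G κ) (e : ι ↪ κ) : CMt G ι := by
  obtain ⟨f, h1, h2, h3⟩ := h
  exact ⟨fun i => f (e i), fun i => h1 _, fun i j hij => h2 _ _ (fun h => hij (e.injective h)),
    fun i j hij => h3 _ _ (fun h => hij (e.injective h))⟩

theorem CMt_of_card {V κ : Type} [Fintype κ] {G : SimpleGraph V} (h : CMt G κ) {k : ℕ}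
    (hk : k ≤ Fintype.card κ) : CMt G (Fin k) := by
  have h1 : Nonempty (Fin k ↪ κ) := by
    apply Function.Embedding.nonempty_of_card_le
    simpa using hk
  exact CMt_emb h h1.some

theorem conn_union {V W : Type} (G : SimpleGraph V) (H : SimpleGraph W) (B : W → Set V)
    (hc : ∀ w, (G.induce (B w)).Connected)
    (ha : ∀ w w', H.Adj w w' → ∃ u ∈ B w, ∃ v ∈ B w', G.Adj u v)
    (S : Set W) (hS : (H.induce S).Connected) :
    (G.induce (⋃ w ∈ S, B w)).Connected := by
  classical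
  set U := ⋃ w ∈ S, B w with hU
  have hsub : ∀ w ∈ S, B w ⊆ U := by
    intro w hw x hx
    rw [hU, Set.mem_iUnion₂]
    exact ⟨w, hw, hx⟩
  have inner : ∀ w (hw : w ∈ S) x (hx : x ∈ B w) y (hy : y ∈ B w),
      (G.induce U).Reachable ⟨x, hsub w hw hx⟩ ⟨y, hsub w hw hy⟩ := by
    intro w hw x hx y hy
    exact ((hc w).preconnected ⟨x, hx⟩ ⟨y, hy⟩).map (G.induceHomOfLE (hsub w hw)).toHom
  have key : ∀ (a b : S) (_ : (H.induce S).Walk a b), ∀ x (hx : x ∈ B a) y (hy : y ∈ B b),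
      (G.induce U).Reachable ⟨x, hsub a a.2 hx⟩ ⟨y, hsub b b.2 hy⟩ := by
    intro a b p
    induction p with
    | nil =>
      intro x hx y hy
      exact inner _ (Subtype.mem _) x hx y hy
    | cons h p ih =>
      intro x hx y hy
      obtain ⟨u, hu, v, hv, huv⟩ := ha _ _ h
      have h1 := inner _ (Subtype.mem _) x hx u hu
      have h2 := ih v hv y hy
      refine h1.trans (SimpleGraph.Reachable.trans ?_ h2)
      apply SimpleGraph.Adj.reachable
      exact huv
  rw [SimpleGraph.connected_iff]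
  constructor
  · rintro ⟨x, hx⟩ ⟨y, hy⟩
    rw [hU, Set.mem_iUnion₂] at hx hy
    obtain ⟨w, hw, hx⟩ := hx
    obtain ⟨w', hw', hy⟩ := hy
    obtain ⟨p⟩ := hS.preconnected ⟨w, hw⟩ ⟨w', hw'⟩
    exact key _ _ p x hx y hy
  · obtain ⟨w⟩ := hS.nonempty
    obtain ⟨x⟩ := (hc w).nonempty
    exact ⟨⟨x.1, hsub w w.2 x.2⟩⟩

/-- Composition of minors. -/
theorem CMt_comp {V W ι : Type} (G : SimpleGraph V) (H : SimpleGraph W) (B : W → Set V)
    (hc : ∀ w, (G.induce (B w)).Connected)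
    (hd : ∀ w w', w ≠ w' → Disjoint (B w) (B w'))
    (ha : ∀ w w', H.Adj w w' → ∃ u ∈ B w, ∃ v ∈ B w', G.Adj u v)
    (h : CMt H ι) : CMt G ι := by
  obtain ⟨f, h1, h2, h3⟩ := h
  refine ⟨fun i => ⋃ w ∈ f i, B w, fun i => conn_union G H B hc ha _ (h1 i), ?_, ?_⟩
  · intro i j hij
    rw [Set.disjoint_left]
    intro x hx hy
    rw [Set.mem_iUnion₂] at hx hy
    obtain ⟨w, hw, hx⟩ := hx
    obtain ⟨w', hw', hy⟩ := hy
    by_cases hww : w = w'
    · subst hww
      exact Set.disjoint_left.1 (h2 i j hij) hw hw'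
    · exact Set.disjoint_left.1 (hd w w' hww) hx hy
  · intro i j hij
    obtain ⟨w, hw, w', hw', hww⟩ := h3 i j hij
    obtain ⟨u, hu, v, hv, huv⟩ := ha w w' hww
    exact ⟨u, Set.mem_iUnion₂.2 ⟨w, hw, hu⟩, v, Set.mem_iUnion₂.2 ⟨w', hw', hv⟩, huv⟩

theorem conn_singleton {V : Type} (G : SimpleGraph V) (x : V) :
    (G.induce ({x} : Set V)).Connected := by
  rw [SimpleGraph.connected_iff]
  refine ⟨?_, ⟨⟨x, rfl⟩⟩⟩
  rintro ⟨a, ha⟩ ⟨b, hb⟩
  rw [Set.mem_singleton_iff] at ha hb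
  subst ha hb
  exact SimpleGraph.Reachable.refl _

/-- Minors of induced subgraphs. -/
theorem CMt_induce {V ι : Type} (G : SimpleGraph V) (T : Set V) (h : CMt (G.induce T) ι) :
    CMt G ι := by
  refine CMt_comp G (G.induce T) (fun w => {w.1}) (fun w => conn_singleton G _) ?_ ?_ h
  · intro w w' hww
    rw [Set.disjoint_singleton]
    exact fun h => hww (Subtype.ext h)
  · intro w w' hww
    exact ⟨w.1, rfl, w'.1, rfl, hww⟩

/-- A clique of `k` vertices is a clique minor. -/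
theorem CMt_clique {V : Type} [DecidableEq V] (G : SimpleGraph V) (T : Finset V)
    (hT : ∀ x ∈ T, ∀ y ∈ T, x ≠ y → G.Adj x y) {k : ℕ} (hk : k ≤ T.card) : CMt G (Fin k) := by
  have h : CMt G T := by
    refine ⟨fun w => {w.1}, fun w => conn_singleton G _, ?_, ?_⟩
    · intro w w' hww
      rw [Set.disjoint_singleton]
      exact fun h => hww (Subtype.ext h)
    · intro w w' hww
      exact ⟨w.1, rfl, w'.1, rfl, hT _ w.2 _ w'.2 (fun h => hww (Subtype.ext h))⟩
  exact CMt_of_card h (by simpa using hk)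

theorem conn_image {V : Type} (G : SimpleGraph V) (T : Set V) (S : Set T)
    (h : ((G.induce T).induce S).Connected) : (G.induce (Subtype.val '' S)).Connected := by
  let f : (G.induce T).induce S →g G.induce (Subtype.val '' S) :=
    { toFun := fun x => ⟨x.1.1, ⟨x.1, x.2, rfl⟩⟩
      map_rel' := fun {a b} hab => hab }
  refine SimpleGraph.Connected.map f ?_ h
  rintro ⟨_, ⟨x, hx, rfl⟩⟩
  exact ⟨⟨x, hx⟩, rfl⟩

/-- The clique inflation of `Q` with cliques of sizes `c`. -/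
def infl {I : Type} (Q : SimpleGraph I) (c : I → ℕ) : SimpleGraph (Σ i, Fin (c i)) where
  Adj x y := x ≠ y ∧ (x.1 = y.1 ∨ Q.Adj x.1 y.1)
  symm := ⟨fun _ _ h => ⟨h.1.symm, h.2.imp Eq.symm SimpleGraph.Adj.symm⟩⟩
  loopless := ⟨fun _ h => h.1 rfl⟩

theorem infl_isInfl {I : Type} (Q : SimpleGraph I) (c : I → ℕ) :
    IsInfl Q (infl Q c) Sigma.fst := by
  intro x y hxy
  show (x ≠ y ∧ (x.1 = y.1 ∨ Q.Adj x.1 y.1)) ↔ _
  simp [hxy]

section subst

variable {V I : Type} (G : SimpleGraph V) (Q : SimpleGraph I) (p : V → I)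
  (hp : ∀ x y, p x ≠ p y → (G.Adj x y ↔ Q.Adj (p x) (p y)))

include hp

theorem col_of_infl (c : I → ℕ) (col : ∀ i, (G.induce {x | p x = i}).Coloring (Fin (c i)))
    (k : ℕ) (h : (infl Q c).Colorable k) : G.Colorable k := by
  obtain ⟨C⟩ := h
  refine ⟨SimpleGraph.Coloring.mk (fun x => C ⟨p x, col (p x) ⟨x, rfl⟩⟩) ?_⟩
  intro x y hxy
  apply C.valid
  by_cases h : p x = p y
  · refine ⟨?_, Or.inl h⟩
    intro heq
    have e : ∀ i (hi : p y = i),
        (⟨p y, col (p y) ⟨y, rfl⟩⟩ : Σ i, Fin (c i)) = ⟨i, col i ⟨y, hi⟩⟩ := by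
      rintro _ rfl
      rfl
    rw [e (p x) h.symm] at heq
    have h2 := eq_of_heq (Sigma.mk.inj heq).2
    have h3 : (G.induce {z | p z = p x}).Adj ⟨x, rfl⟩ ⟨y, h.symm⟩ := hxy
    exact (col (p x)).valid h3 h2
  · refine ⟨?_, Or.inr ((hp x y h).1 hxy)⟩
    intro heq
    exact h (congrArg Sigma.fst heq)

theorem minor_of_infl (c : I → ℕ) (hm : ∀ i, CMt (G.induce {x | p x = i}) (Fin (c i)))
    (ι : Type) (h : CMt (infl Q c) ι) : CMt G ι := by
  choose f h1 h2 h3 using hm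
  have hB : ∀ (w : Σ i, Fin (c i)) (x : V), x ∈ Subtype.val '' (f w.1 w.2) → p x = w.1 := by
    rintro w x ⟨y, _, rfl⟩
    exact y.2
  refine CMt_comp G (infl Q c) (fun w => Subtype.val '' (f w.1 w.2))
    (fun w => conn_image G _ _ (h1 w.1 w.2)) ?_ ?_ h
  · rintro ⟨i, a⟩ ⟨j, b⟩ hne
    rw [Set.disjoint_left]
    intro x hx hy
    have h4 := hB _ _ hx
    have h5 := hB _ _ hy
    have h6 : i = j := by
      have : p x = i := h4
      have h7 : p x = j := h5
      rw [← this, h7]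
    subst h6
    have hab : a ≠ b := fun h => hne (by rw [h])
    obtain ⟨u, hu, hux⟩ := hx
    obtain ⟨v, hv, hvx⟩ := hy
    have huv : u = v := Subtype.ext (hux.trans hvx.symm)
    subst huv
    exact Set.disjoint_left.1 (h2 i a b hab) hu hv
  · rintro ⟨i, a⟩ ⟨j, b⟩ ⟨hne, hadj⟩
    by_cases hij : i = j
    · subst hij
      have hab : a ≠ b := fun h => hne (by rw [h])
      obtain ⟨u, hu, v, hv, huv⟩ := h3 i a b hab
      exact ⟨u.1, ⟨u, hu, rfl⟩, v.1, ⟨v, hv, rfl⟩, huv⟩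
    · obtain ⟨u⟩ := (h1 i a).nonempty
      obtain ⟨v⟩ := (h1 j b).nonempty
      refine ⟨u.1.1, ⟨u.1, u.2, rfl⟩, v.1.1, ⟨v.1, v.2, rfl⟩, ?_⟩
      have hu : p u.1.1 = i := u.1.2
      have hv : p v.1.1 = j := v.1.2
      rw [hp _ _ (by rw [hu, hv]; exact hij), hu, hv]
      exact hadj.resolve_left hij

/-- The chromatic numbers of the pieces. -/
theorem exists_sizes [Finite V] (hG : ∀ i, Had (G.induce {x | p x = i})) :
    ∃ c : I → ℕ, (∀ i, Nonempty ((G.induce {x | p x = i}).Coloring (Fin (c i)))) ∧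
      (∀ i, CMt (G.induce {x | p x = i}) (Fin (c i))) := by
  classical
  have hex : ∀ i, ∃ n, (G.induce {x | p x = i}).Colorable n := by
    intro i
    have : Fintype {x | p x = i} := Fintype.ofFinite _
    exact ⟨_, SimpleGraph.colorable_of_fintype _⟩
  refine ⟨fun i => Nat.find (hex i), fun i => Nat.find_spec (hex i), fun i => ?_⟩
  change CMt (G.induce {x | p x = i}) (Fin (Nat.find (hex i)))
  by_cases h0 : Nat.find (hex i) = 0
  · rw [h0]
    exact ⟨fun a => a.elim0, fun a => a.elim0, fun a => a.elim0, fun a => a.elim0⟩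
  · have h1 := Nat.find_min (hex i) (m := Nat.find (hex i) - 1) (by omega)
    have h2 := hG i _ h1
    have h3 : Nat.find (hex i) - 1 + 1 = Nat.find (hex i) := by omega
    rw [h3] at h2
    exact h2

theorem subst_had [Finite V] (hG : ∀ i, Had (G.induce {x | p x = i}))
    (hQ : ∀ c : I → ℕ, (∀ i, (G.induce {x | p x = i}).Colorable (c i)) → Had (infl Q c)) :
    Had G := by
  obtain ⟨c, h1, h2⟩ := exists_sizes G Q p hp hG
  intro k hk
  refine minor_of_infl G Q p hp c h2 _ (hQ c h1 k fun h => hk ?_)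
  exact col_of_infl G Q p hp c (fun i => (h1 i).some) k h

theorem subst_obo [Finite V] (hG : ∀ i, Had (G.induce {x | p x = i}))
    (hQ : ∀ c : I → ℕ, (∀ i, (G.induce {x | p x = i}).Colorable (c i)) → Obo (infl Q c)) :
    Obo G := by
  obtain ⟨c, h1, h2⟩ := exists_sizes G Q p hp hG
  intro k hk
  refine minor_of_infl G Q p hp c h2 _ (hQ c h1 k fun h => hk ?_)
  exact col_of_infl G Q p hp c (fun i => (h1 i).some) k h

end subst

end Pool.Agent.R553.HW
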