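import Pool.Agent.R553.HW.Basic

/-!
# Closure properties (helper553)

The graphs all of whose clique inflations satisfy Hadwiger's conjecture are closed under
substitution, gluing along cliques and induced subgraphs.
-/

set_option autoImplicit false

namespace Pool.Agent.R553.HW

/-- All finite clique inflations of `G` satisfy `P`. -/
def All (P : (V : Type) → SimpleGraph V → Prop) {V : Type} (G : SimpleGraph V) : Prop :=
  ∀ (V' : Type) [Finite V'] (G' : SimpleGraph V') (π : V' → V), IsInfl G G' π → P V' G'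

theorem glue_had {V : Type} (G : SimpleGraph V) (X Y : Set V) (hXY : ∀ v, v ∈ X ∨ v ∈ Y)
    (hno : ∀ x y, G.Adj x y → (x ∈ X ∧ y ∈ X) ∨ (x ∈ Y ∧ y ∈ Y))
    (hcl : ∀ x y, x ∈ X → x ∈ Y → y ∈ X → y ∈ Y → x ≠ y → G.Adj x y)
    (hX : Had (G.induce X)) (hY : Had (G.induce Y)) : Had G := by
  classical
  intro k hk
  by_cases h1 : (G.induce X).Colorable k
  swap
  · exact CMt_induce G X (hX k h1)
  by_cases h2 : (G.induce Y).Colorable k
  swap
  · exact CMt_induce G Y (hY k h2)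
  exfalso
  apply hk
  obtain ⟨C1⟩ := h1
  obtain ⟨C2⟩ := h2
  let f1 : {v // v ∈ X ∧ v ∈ Y} → Fin k := fun v => C1 ⟨v.1, v.2.1⟩
  let f2 : {v // v ∈ X ∧ v ∈ Y} → Fin k := fun v => C2 ⟨v.1, v.2.2⟩
  have i1 : Function.Injective f1 := by
    intro a b hab
    by_contra hne
    have h3 : G.Adj a.1 b.1 :=
      hcl _ _ a.2.1 a.2.2 b.2.1 b.2.2 (fun h => hne (Subtype.ext h))
    have h4 : (G.induce X).Adj ⟨a.1, a.2.1⟩ ⟨b.1, b.2.1⟩ := h3
    exact C1.valid h4 hab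
  have i2 : Function.Injective f2 := by
    intro a b hab
    by_contra hne
    have h3 : G.Adj a.1 b.1 :=
      hcl _ _ a.2.1 a.2.2 b.2.1 b.2.2 (fun h => hne (Subtype.ext h))
    have h4 : (G.induce Y).Adj ⟨a.1, a.2.2⟩ ⟨b.1, b.2.2⟩ := h3
    exact C2.valid h4 hab
  let e : {c // c ∈ Set.range f2} ≃ {c // c ∈ Set.range f1} :=
    (Equiv.ofInjective f2 i2).symm.trans (Equiv.ofInjective f1 i1)
  let σ : Equiv.Perm (Fin k) := e.extendSubtype
  have hσ : ∀ v, σ (f2 v) = f1 v := by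
    intro v
    have h3 : σ (f2 v) = e ⟨f2 v, ⟨v, rfl⟩⟩ := Equiv.extendSubtype_apply_of_mem e _ ⟨v, rfl⟩
    rw [h3]
    show ((Equiv.ofInjective f1 i1) ((Equiv.ofInjective f2 i2).symm ⟨f2 v, ⟨v, rfl⟩⟩)).1 = f1 v
    have h4 : (Equiv.ofInjective f2 i2).symm ⟨f2 v, ⟨v, rfl⟩⟩ = v := by
      rw [Equiv.symm_apply_eq]
      rfl
    rw [h4]
    rfl
  let C : V → Fin k := fun v =>
    if h : v ∈ X then C1 ⟨v, h⟩ else σ (C2 ⟨v, (hXY v).resolve_left h⟩)
  have hC1 : ∀ v (h : v ∈ X), C v = C1 ⟨v, h⟩ := fun v h => dif_pos h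
  have hC2 : ∀ v (h : v ∈ Y), C v = σ (C2 ⟨v, h⟩) := by
    intro v h
    by_cases hv : v ∈ X
    · rw [hC1 v hv]
      exact (hσ ⟨v, hv, h⟩).symm
    · exact dif_neg hv
  refine ⟨SimpleGraph.Coloring.mk C ?_⟩
  intro x y hxy
  rcases hno x y hxy with ⟨h3, h4⟩ | ⟨h3, h4⟩
  · rw [hC1 x h3, hC1 y h4]
    exact C1.valid (show (G.induce X).Adj ⟨x, h3⟩ ⟨y, h4⟩ from hxy)
  · rw [hC2 x h3, hC2 y h4]
    intro h
    exact C2.valid (show (G.induce Y).Adj ⟨x, h3⟩ ⟨y, h4⟩ from hxy) (σ.injective h)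

theorem infl_piece {V V' : Type} {G : SimpleGraph V} {G' : SimpleGraph V'} {π : V' → V}
    (hπ : IsInfl G G' π) (X : Set V) (X' : Set V') (hX : ∀ x ∈ X', π x ∈ X) :
    IsInfl (G.induce X) (G'.induce X') (fun x => ⟨π x.1, hX x.1 x.2⟩) := by
  intro x y hxy
  have h1 : x.1 ≠ y.1 := fun h => hxy (Subtype.ext h)
  have h2 := hπ x.1 y.1 h1
  show G'.Adj x.1 y.1 ↔ _
  rw [h2]
  show _ ↔ ((⟨π x.1, _⟩ : X) = ⟨π y.1, _⟩ ∨ G.Adj (π x.1) (π y.1))
  rw [Subtype.mk_eq_mk]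

theorem all_subst {V I : Type} [Finite I] (P : (V : Type) → SimpleGraph V → Prop)
    (hP : P = @Had ∨ P = @Obo) (G : SimpleGraph V) (Q : SimpleGraph I) (p : V → I)
    (hp : ∀ x y, p x ≠ p y → (G.Adj x y ↔ Q.Adj (p x) (p y))) (hQ : All P Q)
    (hG : ∀ i, All @Had (G.induce {x | p x = i})) : All P G := by
  intro V' _ G' π hπ
  have hp' : ∀ x y : V', p (π x) ≠ p (π y) → (G'.Adj x y ↔ Q.Adj (p (π x)) (p (π y))) := by
    intro x y hxy
    have hne : x ≠ y := fun h => hxy (by rw [h])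
    have hne' : π x ≠ π y := fun h => hxy (by rw [h])
    rw [hπ x y hne, hp _ _ hxy]
    exact ⟨fun h => h.resolve_left hne', Or.inr⟩
  have hG' : ∀ i, Had (G'.induce {x | p (π x) = i}) := by
    intro i
    exact hG i _ _ _ (infl_piece hπ {x | p x = i} {x | p (π x) = i} (fun x hx => hx))
  rcases hP with rfl | rfl
  · exact subst_had G' Q (fun x => p (π x)) hp' hG'
      (fun c _ => hQ _ _ _ (infl_isInfl Q c))
  · exact subst_obo G' Q (fun x => p (π x)) hp' hG'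
      (fun c _ => hQ _ _ _ (infl_isInfl Q c))

theorem all_glue {V : Type} (G : SimpleGraph V) (X Y : Set V) (hXY : ∀ v, v ∈ X ∨ v ∈ Y)
    (hno : ∀ x y, G.Adj x y → (x ∈ X ∧ y ∈ X) ∨ (x ∈ Y ∧ y ∈ Y))
    (hcl : ∀ x y, x ∈ X → x ∈ Y → y ∈ X → y ∈ Y → x ≠ y → G.Adj x y)
    (hX : All @Had (G.induce X)) (hY : All @Had (G.induce Y)) : All @Had G := by
  intro V' _ G' π hπ
  refine glue_had G' {x | π x ∈ X} {x | π x ∈ Y} (fun v => hXY (π v)) ?_ ?_
    (hX _ _ _ (infl_piece hπ X {x | π x ∈ X} (fun x hx => hx)))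
    (hY _ _ _ (infl_piece hπ Y {x | π x ∈ Y} (fun x hx => hx)))
  · intro x y hxy
    rcases (hπ x y (G'.ne_of_adj hxy)).1 hxy with h | h
    · rcases hXY (π x) with h1 | h1
      · left
        refine ⟨h1, ?_⟩
        show π y ∈ X
        rw [← h]; exact h1
      · right
        refine ⟨h1, ?_⟩
        show π y ∈ Y
        rw [← h]; exact h1
    · exact hno _ _ h
  · intro x y h1 h2 h3 h4 hxy
    rw [hπ x y hxy]
    by_cases h : π x = π y
    · exact Or.inl h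
    · exact Or.inr (hcl _ _ h1 h2 h3 h4 h)

theorem all_embed {V W : Type} {P : (V : Type) → SimpleGraph V → Prop} (G : SimpleGraph V)
    (H : SimpleGraph W) (f : H ↪g G) (hG : All P G) : All P H := by
  intro V' _ G' π hπ
  refine hG V' G' (fun x => f (π x)) ?_
  intro x y hxy
  rw [hπ x y hxy, f.injective.eq_iff, f.map_adj_iff]

end Pool.Agent.R553.HW
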