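import Pool.Agent.R553.HW.Basic

/-!
# Clique inflations of cycles (helper553)

Hadwiger's conjecture for all clique inflations of odd cycles.
-/

set_option autoImplicit false

namespace Pool.Agent.R553.HW

open Finset

theorem exists_idx {V : Type} [Fintype V] [DecidableEq V] (val : V → ℕ) :
    ∃ idx : V → ℕ, (∀ x, idx x < (univ.filter fun y => val y = val x).card) ∧
      (∀ x y, val x = val y → idx x = idx y → x = y) ∧
      (∀ j a, a < (univ.filter fun y => val y = j).card → ∃ x, val x = j ∧ idx x = a) := by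
  classical
  have e : ∀ j, Nonempty ({x // val x = j} ≃ Fin (univ.filter fun y => val y = j).card) := by
    intro j
    exact ⟨Fintype.equivFinOfCardEq (Fintype.card_subtype _)⟩
  let E := fun j => (e j).some
  have key : ∀ (x : V) (j : ℕ) (h : val x = j), (E (val x) ⟨x, rfl⟩).val = (E j ⟨x, h⟩).val := by
    rintro x _ rfl
    rfl
  refine ⟨fun x => (E (val x) ⟨x, rfl⟩).val, fun x => Fin.is_lt _, ?_, ?_⟩
  · intro x y hxy h
    dsimp only at h
    rw [key y (val x) hxy.symm] at h
    have h2 := (E (val x)).injective (Fin.ext h)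
    exact congrArg Subtype.val h2
  · intro j a ha
    refine ⟨((E j).symm ⟨a, ha⟩).1, ((E j).symm ⟨a, ha⟩).2, ?_⟩
    dsimp only
    rw [key _ j ((E j).symm ⟨a, ha⟩).2]
    simp

theorem exists_gaps (cap : ℕ → ℕ) : ∀ (n G : ℕ), G ≤ ∑ j ∈ range n, cap j →
    ∃ g : ℕ → ℕ, (∀ j < n, g j ≤ cap j) ∧ ∑ j ∈ range n, g j = G := by
  intro n
  induction n with
  | zero =>
    intro G hG
    refine ⟨fun _ => 0, by simp, ?_⟩
    simp at hG
    simp [hG]
  | succ n ih =>
    intro G hG
    rw [sum_range_succ] at hG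
    by_cases h : G ≤ ∑ j ∈ range n, cap j
    · obtain ⟨g, h1, h2⟩ := ih G h
      refine ⟨fun j => if j < n then g j else 0, ?_, ?_⟩
      · intro j hj
        dsimp only
        split_ifs with h3
        · exact h1 j h3
        · omega
      · rw [sum_range_succ, if_neg (lt_irrefl n), add_zero, ← h2]
        exact sum_congr rfl fun j hj => if_pos (mem_range.1 hj)
    · refine ⟨fun j => if j < n then cap j else G - ∑ j ∈ range n, cap j, ?_, ?_⟩
      · intro j hj
        dsimp only
        split_ifs with h3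
        · exact le_rfl
        · have : j = n := by omega
          subst this
          omega
      · rw [sum_range_succ, if_neg (lt_irrefl n)]
        have : ∑ j ∈ range n, (if j < n then cap j else G - ∑ j ∈ range n, cap j) =
            ∑ j ∈ range n, cap j := sum_congr rfl fun j hj => if_pos (mem_range.1 hj)
        rw [this]
        omega

theorem cyc_adj {n : ℕ} (hn : 3 ≤ n) (a b : Fin n) : (SimpleGraph.cycleGraph n).Adj a b ↔
    (a.val = b.val + 1 ∨ b.val = a.val + 1 ∨ (a.val = 0 ∧ b.val + 1 = n) ∨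
      (b.val = 0 ∧ a.val + 1 = n)) := by
  have key : ∀ a b : Fin n, (a - b).val = 1 ↔ (a.val = b.val + 1 ∨ (a.val = 0 ∧ b.val + 1 = n)) := by
    intro a b
    rw [Fin.sub_def]
    show (n - b.val + a.val) % n = 1 ↔ _
    have ha := a.is_lt
    have hb := b.is_lt
    rcases le_or_gt b.val a.val with h | h
    · have e : n - b.val + a.val = (a.val - b.val) + n := by omega
      rw [e, Nat.add_mod_right, Nat.mod_eq_of_lt (by omega)]
      omega
    · rw [Nat.mod_eq_of_lt (by omega)]
      omega
  rw [SimpleGraph.cycleGraph_adj', key, key]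
  tauto

theorem sum_odd (w : ℕ → ℕ) (m : ℕ) :
    ∑ j ∈ range (2 * m + 1), w j = w 0 + ∑ t ∈ range m, (w (2 * t + 1) + w (2 * t + 2)) := by
  induction m with
  | zero => simp
  | succ m ih =>
    rw [show 2 * (m + 1) + 1 = (2 * m + 1) + 1 + 1 by ring, sum_range_succ, sum_range_succ, ih,
      sum_range_succ]
    ring

/-- successor on the cycle -/
def nxt (n j : ℕ) : ℕ := if j + 1 = n then 0 else j + 1

theorem sum_nxt (w : ℕ → ℕ) (n : ℕ) (hn : 1 ≤ n) :
    ∑ j ∈ range n, w (nxt n j) = ∑ j ∈ range n, w j := by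
  obtain ⟨N, rfl⟩ : ∃ N, n = N + 1 := ⟨n - 1, by omega⟩
  rw [sum_range_succ, sum_range_succ']
  have h1 : w (nxt (N + 1) N) = w 0 := by simp [nxt]
  rw [h1]
  congr 1
  apply sum_congr rfl
  intro j hj
  rw [mem_range] at hj
  unfold nxt
  rw [if_neg (by omega)]

/-- the setting: a graph whose vertices lie over the vertices `0, ..., n - 1` of a cycle -/
structure Over {V : Type} [Fintype V] (G : SimpleGraph V) (n : ℕ) (val idx : V → ℕ) (w : ℕ → ℕ) :
    Prop where
  val_lt : ∀ x, val x < n
  idx_lt : ∀ x, idx x < w (val x)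
  inj : ∀ x y, val x = val y → idx x = idx y → x = y
  surj : ∀ j a, a < w j → ∃ x, val x = j ∧ idx x = a
  card : ∀ j, (univ.filter fun x => val x = j).card = w j
  adj : ∀ x y, x ≠ y → (G.Adj x y ↔ (val x = val y ∨ nxt n (val x) = val y ∨
    nxt n (val y) = val x))

theorem Over.colorable {V : Type} [Fintype V] {G : SimpleGraph V} {n : ℕ} {val idx : V → ℕ}
    {w : ℕ → ℕ} (h : Over G n val idx w) {m k : ℕ} (hn : n = 2 * m + 1)
    (h1 : ∀ j < n, w j + w (nxt n j) ≤ k) (h2 : ∑ j ∈ range n, w j ≤ m * k) : G.Colorable k := by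
  set W := ∑ j ∈ range n, w j with hW
  have hcap : ∑ j ∈ range n, (k - (w j + w (nxt n j))) + 2 * W = n * k := by
    have e1 : ∑ j ∈ range n, (w j + w (nxt n j)) = 2 * W := by
      rw [sum_add_distrib, sum_nxt w n (by omega)]
      ring
    rw [← e1, ← sum_add_distrib]
    rw [sum_congr rfl (g := fun _ => k)]
    · simp
    · intro j hj
      have := h1 j (mem_range.1 hj)
      omega
  have hG : m * k - W ≤ ∑ j ∈ range n, (k - (w j + w (nxt n j))) := by
    have e2 : n * k = m * k + m * k + k := by rw [hn]; ring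
    omega
  obtain ⟨g, g1, g2⟩ := exists_gaps _ n _ hG
  let s : ℕ → ℕ := fun j => ∑ t ∈ range j, (w t + g t)
  have hs : ∀ j, s (j + 1) = s j + (w j + g j) := fun j => sum_range_succ _ _
  have hsn : s n = m * k := by
    show ∑ t ∈ range n, (w t + g t) = m * k
    rw [sum_add_distrib, g2]
    omega
  have hk : ∀ _ : V, 0 < k := by
    intro x
    have h3 := h1 (val x) (h.val_lt x)
    have h4 := h.idx_lt x
    omega
  -- the colour of the next vertex
  have hnext : ∀ j < n, s (nxt n j) ≡ s j + (w j + g j) [MOD k] := by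
    intro j hj
    rw [← hs]
    unfold nxt
    split_ifs with h3
    · rw [h3, hsn]
      show ∑ t ∈ range 0, (w t + g t) ≡ m * k [MOD k]
      rw [range_zero, sum_empty]
      exact (Nat.modEq_zero_iff_dvd.2 (Dvd.intro_left m rfl)).symm
    · exact Nat.ModEq.refl _
  have hne : ∀ x y, nxt n (val x) = val y →
      ¬ (s (val x) + idx x ≡ s (val y) + idx y [MOD k]) := by
    intro x y hxy hmod
    have h3 := hnext (val x) (h.val_lt x)
    rw [hxy] at h3
    have h4 : s (val x) + idx x ≡ s (val x) + (w (val x) + g (val x) + idx y) [MOD k] := by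
      refine hmod.trans ?_
      have := Nat.ModEq.add_right (idx y) h3
      rwa [add_assoc] at this
    have h5 := Nat.ModEq.add_left_cancel' _ h4
    have hx := h.idx_lt x
    have hy := h.idx_lt y
    have hg := g1 (val x) (h.val_lt x)
    have hw := h1 (val x) (h.val_lt x)
    rw [hxy] at hg hw
    have h6 := Nat.ModEq.eq_of_lt_of_lt h5 (by omega) (by omega)
    omega
  refine ⟨SimpleGraph.Coloring.mk
    (fun x => (⟨(s (val x) + idx x) % k, Nat.mod_lt _ (hk x)⟩ : Fin k)) ?_⟩
  intro x y hxy heq
  have hmod : s (val x) + idx x ≡ s (val y) + idx y [MOD k] := Fin.mk.inj_iff.1 heq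
  have hxy' := G.ne_of_adj hxy
  rcases (h.adj x y hxy').1 hxy with h3 | h3 | h3
  · rw [h3] at hmod
    have h4 := Nat.ModEq.add_left_cancel' _ hmod
    have hx := h.idx_lt x
    have hy := h.idx_lt y
    rw [h3] at hx
    have hw := h1 (val y) (h.val_lt y)
    have h5 := Nat.ModEq.eq_of_lt_of_lt h4 (by omega) (by omega)
    exact hxy' (h.inj x y h3 h5)
  · exact hne x y h3 hmod
  · exact hne y x h3 hmod.symm

theorem Over.edge {V : Type} [Fintype V] [DecidableEq V] {G : SimpleGraph V} {n : ℕ}
    {val idx : V → ℕ} {w : ℕ → ℕ} (h : Over G n val idx w) (hn : 3 ≤ n) {j k : ℕ} (hj : j < n)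
    (hk : k ≤ w j + w (nxt n j)) : CMt G (Fin k) := by
  have hne : j ≠ nxt n j := by unfold nxt; split_ifs <;> omega
  apply CMt_clique G (univ.filter fun x => val x = j ∨ val x = nxt n j)
  · intro x hx y hy hxy
    rw [mem_filter] at hx hy
    rw [h.adj x y hxy]
    rcases hx.2 with h1 | h1 <;> rcases hy.2 with h2 | h2
    · left; rw [h1, h2]
    · right; left; rw [h1, h2]
    · right; right; rw [h1, h2]
    · left; rw [h1, h2]
  · rw [filter_or, card_union_of_disjoint, h.card, h.card]
    · exact hk
    · rw [disjoint_filter]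
      intro x _ h1 h2
      exact hne (h1.symm.trans h2)

theorem Over.around {V : Type} [Fintype V] [DecidableEq V] {G : SimpleGraph V} {n : ℕ}
    {val idx : V → ℕ} {w : ℕ → ℕ} (h : Over G n val idx w) {m t k : ℕ} (hn : n = 2 * m + 1)
    (ht : t < m) (hmin : ∀ j < n, w 0 ≤ w j) (hk : k ≤ w (2 * t + 1) + w (2 * t + 2) + w 0) :
    CMt G (Fin k) := by
  classical
  set u := 2 * t + 1 with hu
  set v := 2 * t + 2 with hv
  have hcard : Fintype.card ({x : V // val x = u ∨ val x = v} ⊕ Fin (w 0)) = w u + w v + w 0 := by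
    rw [Fintype.card_sum, Fintype.card_fin, Fintype.card_subtype, filter_or,
      card_union_of_disjoint, h.card, h.card]
    rw [disjoint_filter]
    intro x _ h1 h2
    omega
  apply CMt_of_card (κ := {x : V // val x = u ∨ val x = v} ⊕ Fin (w 0)) _ (by rw [hcard]; exact hk)
  have hadj : ∀ x y, (nxt n (val x) = val y) → G.Adj x y := by
    intro x y hxy
    have hne : x ≠ y := by
      rintro rfl
      revert hxy
      unfold nxt
      split_ifs <;> omega
    exact (h.adj x y hne).2 (Or.inr (Or.inl hxy))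
  have nxt_succ : ∀ j, j + 1 < n → nxt n j = j + 1 := by
    intro j hj; unfold nxt; rw [if_neg (by omega)]
  have nxt_last : nxt n (2 * m) = 0 := by unfold nxt; rw [if_pos (by omega)]
  -- the elements of the branch set `a`
  have hel : ∀ a : Fin (w 0), ∀ j < n, ∃ x, val x = j ∧ idx x = a.val := by
    intro a j hj
    exact h.surj j a.val (a.is_lt.trans_le (hmin j hj))
  refine ⟨Sum.elim (fun x => {x.1}) (fun a => {y | (val y ≠ u ∧ val y ≠ v) ∧ idx y = a.val}),
    ?_, ?_, ?_⟩
  · rintro (x | a)
    · exact conn_singleton G _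
    · simp only [Sum.elim_inr]
      set F : Set V := {y | (val y ≠ u ∧ val y ≠ v) ∧ idx y = a.val} with hF
      obtain ⟨z0, hz0, hz0'⟩ := hel a 0 (by omega)
      have hz0F : z0 ∈ F := ⟨⟨by omega, by omega⟩, hz0'⟩
      have hA : ∀ j, j ≤ 2 * t → ∀ y (hy : y ∈ F), val y = j →
          (G.induce F).Reachable ⟨y, hy⟩ ⟨z0, hz0F⟩ := by
        intro j
        induction j with
        | zero =>
          intro _ y hy hyj
          have : y = z0 := h.inj y z0 (by omega) (by rw [hy.2, hz0'])
          subst this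
          exact SimpleGraph.Reachable.refl _
        | succ j ih =>
          intro hj y hy hyj
          obtain ⟨y', hy', hy''⟩ := hel a j (by omega)
          have hy'F : y' ∈ F := ⟨⟨by omega, by omega⟩, hy''⟩
          refine SimpleGraph.Reachable.trans ?_ (ih (by omega) y' hy'F hy')
          apply SimpleGraph.Adj.reachable
          show G.Adj y y'
          apply SimpleGraph.Adj.symm
          apply hadj
          rw [hy', nxt_succ j (by omega), hyj]
      have hB : ∀ d, ∀ y (hy : y ∈ F), val y + d = 2 * m → 2 * t + 3 ≤ val y →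
          (G.induce F).Reachable ⟨y, hy⟩ ⟨z0, hz0F⟩ := by
        intro d
        induction d with
        | zero =>
          intro y hy hyd _
          apply SimpleGraph.Adj.reachable
          show G.Adj y z0
          apply hadj
          rw [show val y = 2 * m by omega, nxt_last, hz0]
        | succ d ih =>
          intro y hy hyd hyt
          obtain ⟨y', hy', hy''⟩ := hel a (val y + 1) (by omega)
          have hy'F : y' ∈ F := ⟨⟨by omega, by omega⟩, hy''⟩
          refine SimpleGraph.Reachable.trans ?_ (ih y' hy'F (by omega) (by omega))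
          apply SimpleGraph.Adj.reachable
          show G.Adj y y'
          apply hadj
          rw [nxt_succ _ (by omega), hy']
      have hall : ∀ y (hy : y ∈ F), (G.induce F).Reachable ⟨y, hy⟩ ⟨z0, hz0F⟩ := by
        intro y hy
        have hyn := h.val_lt y
        have hy1 := hy.1
        rcases Nat.lt_or_ge (2 * t) (val y) with h1 | h1
        · exact hB (2 * m - val y) y hy (by omega) (by omega)
        · exact hA _ h1 y hy rfl
      rw [SimpleGraph.connected_iff]
      refine ⟨?_, ⟨⟨z0, hz0F⟩⟩⟩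
      rintro ⟨x, hx⟩ ⟨y, hy⟩
      exact (hall x hx).trans (hall y hy).symm
  · rintro (x | a) (y | b) hne
    · simp only [Sum.elim_inl]
      rw [Set.disjoint_singleton]
      intro hxy
      exact hne (by rw [Subtype.ext hxy])
    · simp only [Sum.elim_inl, Sum.elim_inr]
      rw [Set.disjoint_singleton_left]
      rintro ⟨⟨h1, h2⟩, _⟩
      rcases x.2 with h3 | h3
      · exact h1 h3
      · exact h2 h3
    · simp only [Sum.elim_inl, Sum.elim_inr]
      rw [Set.disjoint_singleton_right]
      rintro ⟨⟨h1, h2⟩, _⟩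
      rcases y.2 with h3 | h3
      · exact h1 h3
      · exact h2 h3
    · simp only [Sum.elim_inr]
      rw [Set.disjoint_left]
      rintro z ⟨_, h1⟩ ⟨_, h2⟩
      exact hne (by rw [Fin.ext (h1.symm.trans h2)])
  · have hxa : ∀ (x : {x : V // val x = u ∨ val x = v}) (a : Fin (w 0)),
        ∃ z ∈ {y | (val y ≠ u ∧ val y ≠ v) ∧ idx y = a.val}, G.Adj x.1 z := by
      intro x a
      rcases x.2 with h3 | h3
      · obtain ⟨z, hz, hz'⟩ := hel a (2 * t) (by omega)
        refine ⟨z, ⟨⟨by omega, by omega⟩, hz'⟩, ?_⟩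
        apply SimpleGraph.Adj.symm
        apply hadj
        rw [hz, nxt_succ _ (by omega), h3]
      · rcases Nat.lt_or_ge (2 * t + 3) n with h4 | h4
        · obtain ⟨z, hz, hz'⟩ := hel a (2 * t + 3) h4
          refine ⟨z, ⟨⟨by omega, by omega⟩, hz'⟩, ?_⟩
          apply hadj
          rw [h3, nxt_succ _ (by omega), hz]
        · obtain ⟨z, hz, hz'⟩ := hel a 0 (by omega)
          refine ⟨z, ⟨⟨by omega, by omega⟩, hz'⟩, ?_⟩
          apply hadj
          rw [h3, show v = 2 * m by omega, nxt_last, hz]
    rintro (x | a) (y | b) hne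
    · refine ⟨x.1, rfl, y.1, rfl, ?_⟩
      have hxy : x.1 ≠ y.1 := fun h => hne (by rw [Subtype.ext h])
      rw [h.adj _ _ hxy]
      have huv : nxt n u = v := by rw [nxt_succ _ (by omega)]
      rcases x.2 with h1 | h1 <;> rcases y.2 with h2 | h2
      · left; rw [h1, h2]
      · right; left; rw [h1, h2, huv]
      · right; right; rw [h1, h2, huv]
      · left; rw [h1, h2]
    · obtain ⟨z, hz, hxz⟩ := hxa x b
      exact ⟨x.1, rfl, z, hz, hxz⟩
    · obtain ⟨z, hz, hxz⟩ := hxa y a
      exact ⟨z, hz, y.1, rfl, hxz.symm⟩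
    · obtain ⟨z, hz, hz'⟩ := hel a 0 (by omega)
      obtain ⟨z', hz2, hz2'⟩ := hel b 0 (by omega)
      refine ⟨z, ⟨⟨by omega, by omega⟩, hz'⟩, z', ⟨⟨by omega, by omega⟩, hz2'⟩, ?_⟩
      have hzz : z ≠ z' := by
        rintro rfl
        exact hne (by rw [Fin.ext (hz'.symm.trans hz2')])
      rw [h.adj _ _ hzz]
      left
      rw [hz, hz2]

theorem Over.had {V : Type} [Fintype V] [DecidableEq V] {G : SimpleGraph V} {n : ℕ}
    {val idx : V → ℕ} {w : ℕ → ℕ} (h : Over G n val idx w) {m : ℕ} (hn : n = 2 * m + 1)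
    (hm : 1 ≤ m) (hmin : ∀ j < n, w 0 ≤ w j) : Had G := by
  intro k hk
  by_cases h1 : ∀ j < n, w j + w (nxt n j) ≤ k
  · by_cases h2 : ∑ j ∈ range n, w j ≤ m * k
    · exact absurd (h.colorable hn h1 h2) hk
    · have h3 : ∃ t < m, k + 1 ≤ w (2 * t + 1) + w (2 * t + 2) + w 0 := by
        by_contra hcon
        push Not at hcon
        apply h2
        rw [hn, sum_odd]
        have h4 : ∑ t ∈ range m, (w (2 * t + 1) + w (2 * t + 2)) ≤ ∑ t ∈ range m, (k - w 0) := by
          apply sum_le_sum
          intro t ht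
          have := hcon t (mem_range.1 ht)
          omega
        rw [sum_const, card_range, smul_eq_mul] at h4
        have h5 : w 0 ≤ k := by
          have := hcon 0 (by omega)
          omega
        have h6 : m * (k - w 0) + m * w 0 = m * k := by
          rw [← Nat.mul_add]
          congr 1
          omega
        have h7 : w 0 ≤ m * w 0 := Nat.le_mul_of_pos_left _ (by omega)
        omega
      obtain ⟨t, ht, h4⟩ := h3
      exact h.around hn ht hmin h4
  · push Not at h1
    obtain ⟨j, hj, h2⟩ := h1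
    exact h.edge (by omega) hj h2

/-- Clique inflations of odd cycles satisfy Hadwiger's conjecture. -/
theorem cycle_had {V' : Type} [Finite V'] (m : ℕ) (hm : 1 ≤ m) (G' : SimpleGraph V')
    (π : V' → Fin (2 * m + 1)) (hπ : IsInfl (SimpleGraph.cycleGraph (2 * m + 1)) G' π) :
    Had G' := by
  classical
  have : Fintype V' := Fintype.ofFinite _
  -- rotate so that a smallest clique lies over `0`
  obtain ⟨j0, _, hj0⟩ := exists_min_image (univ : Finset (Fin (2 * m + 1)))
    (fun j => (univ.filter fun x => π x = j).card) ⟨0, mem_univ _⟩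
  let val : V' → ℕ := fun x => (π x - j0).val
  obtain ⟨idx, i1, i2, i3⟩ := exists_idx val
  have hO : Over G' (2 * m + 1) val idx (fun j => (univ.filter fun y => val y = j).card) := by
    refine ⟨fun x => Fin.is_lt _, i1, i2, i3, fun j => rfl, ?_⟩
    intro x y hxy
    rw [hπ x y hxy]
    have e1 : π x = π y ↔ val x = val y := by
      show _ ↔ (π x - j0).val = (π y - j0).val
      rw [← Fin.ext_iff, sub_left_inj]
    have e2 : (SimpleGraph.cycleGraph (2 * m + 1)).Adj (π x) (π y) ↔
        (SimpleGraph.cycleGraph (2 * m + 1)).Adj (π x - j0) (π y - j0) := by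
      rw [SimpleGraph.cycleGraph_adj', SimpleGraph.cycleGraph_adj', sub_sub_sub_cancel_right,
        sub_sub_sub_cancel_right]
    rw [e1, e2, cyc_adj (by omega)]
    show (val x = val y ∨ (val x = val y + 1 ∨ val y = val x + 1 ∨
      (val x = 0 ∧ val y + 1 = 2 * m + 1) ∨ (val y = 0 ∧ val x + 1 = 2 * m + 1))) ↔ _
    have hx : val x < 2 * m + 1 := Fin.is_lt _
    have hy : val y < 2 * m + 1 := Fin.is_lt _
    unfold nxt
    split_ifs <;> omega
  refine hO.had rfl hm ?_
  intro j hj
  have h0 : (univ.filter fun y => val y = 0) = univ.filter fun x => π x = j0 := by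
    apply filter_congr
    intro x _
    show (π x - j0).val = 0 ↔ _
    rw [← Fin.val_zero (2 * m + 1), ← Fin.ext_iff, sub_eq_zero]
  have h1 : (univ.filter fun y => val y = j) =
      univ.filter fun x => π x = (⟨j, hj⟩ : Fin (2 * m + 1)) + j0 := by
    apply filter_congr
    intro x _
    show (π x - j0).val = j ↔ _
    have : (π x - j0).val = j ↔ π x - j0 = ⟨j, hj⟩ := by rw [Fin.ext_iff]
    rw [this, sub_eq_iff_eq_add]
  rw [h0, h1]
  exact hj0 _ (mem_univ _)

end Pool.Agent.R553.HW
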