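import Pool.Agent.R553.HW.Basic

/-!
# Clique inflations of perfect graphs (helper553)

Lovász's replication lemma: clique inflations of perfect graphs are coloured by as many colours as
their largest cliques have vertices.
-/

set_option autoImplicit false

namespace Pool.Agent.R553.HW

open Finset

/-- Every induced subgraph without clique on `k + 1` vertices is `k`-colourable. -/
def Perfect {V : Type} (G : SimpleGraph V) : Prop :=
  ∀ (S : Set V) (k : ℕ), (G.induce S).CliqueFree (k + 1) → (G.induce S).Colorable k

/-- The vertices of `S` can be coloured with `k` colours. -/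
def Col {V : Type} (G : SimpleGraph V) (S : Finset V) (k : ℕ) : Prop :=
  ∃ c : V → ℕ, (∀ x ∈ S, c x < k) ∧ ∀ x ∈ S, ∀ y ∈ S, G.Adj x y → c x ≠ c y

/-- `S` contains a clique on `m` vertices. -/
def Clq {V : Type} (G : SimpleGraph V) (S : Finset V) (m : ℕ) : Prop :=
  ∃ T ⊆ S, (∀ x ∈ T, ∀ y ∈ T, x ≠ y → G.Adj x y) ∧ T.card = m

theorem Col.mono {V : Type} {G : SimpleGraph V} {S : Finset V} {k m : ℕ} (h : Col G S k)
    (hkm : k ≤ m) : Col G S m := by
  obtain ⟨c, h1, h2⟩ := h
  exact ⟨c, fun x hx => (h1 x hx).trans_le hkm, h2⟩

theorem Clq.mono {V : Type} {G : SimpleGraph V} {S S' : Finset V} {m : ℕ} (h : Clq G S m)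
    (hS : S ⊆ S') : Clq G S' m := by
  obtain ⟨T, h1, h2, h3⟩ := h
  exact ⟨T, h1.trans hS, h2, h3⟩

theorem twin {V V' : Type} {G : SimpleGraph V} {G' : SimpleGraph V'} {π : V' → V}
    (hπ : IsInfl G G' π) {x y z : V'} (hxy : π x = π y) (hzx : x ≠ z) (hzy : y ≠ z) :
    G'.Adj x z ↔ G'.Adj y z := by
  rw [hπ x z hzx, hπ y z hzy, hxy]

theorem lov {V V' : Type} (G : SimpleGraph V) (G' : SimpleGraph V')
    (π : V' → V) (hπ : IsInfl G G' π)
    (hperf : ∀ S : Finset V', Set.InjOn π S → ∀ k, Col G' S k ∨ Clq G' S (k + 1)) :
    ∀ n : ℕ, ∀ S : Finset V', S.card ≤ n → ∀ k, Col G' S k ∨ Clq G' S (k + 1) := by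
  classical
  intro n
  induction n with
  | zero =>
    intro S hS k
    have : S = ∅ := by rw [← Finset.card_eq_zero]; omega
    subst this
    exact Or.inl ⟨fun _ => 0, by simp, by simp⟩
  | succ n ih =>
    intro S hS k
    by_cases hinj : Set.InjOn π S
    · exact hperf S hinj k
    · have hex : ∃ x ∈ S, ∃ y ∈ S, π x = π y ∧ x ≠ y := by
        by_contra hcon
        push Not at hcon
        exact hinj fun x hx y hy hxy => hcon x hx y hy hxy
      obtain ⟨x, hx, y, hy, hxy, hne⟩ := hex
      set S' := S.erase x with hS'
      have hS'S : S' ⊆ S := Finset.erase_subset _ _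
      have hcard' : S'.card ≤ n := by
        have h7 : S'.card = S.card - 1 := Finset.card_erase_of_mem hx
        omega
      have hyS' : y ∈ S' := Finset.mem_erase.2 ⟨hne.symm, hy⟩
      have hadjxy : G'.Adj x y := (hπ x y hne).2 (Or.inl hxy)
      rcases ih S' hcard' k with hc | hc
      swap
      · exact Or.inr (hc.mono hS'S)
      have hexk : ∃ m, Col G' S' m := ⟨k, hc⟩
      set ω := Nat.find hexk with hω
      have hωc : Col G' S' ω := Nat.find_spec hexk
      have hωk : ω ≤ k := Nat.find_min' hexk hc
      have hω0 : 0 < ω := by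
        obtain ⟨c, h1, _⟩ := hωc
        exact (Nat.zero_le _).trans_lt (h1 y hyS')
      have hnot : ¬ Col G' S' (ω - 1) := Nat.find_min hexk (by omega)
      have hbig : Clq G' S' ω := by
        rcases ih S' hcard' (ω - 1) with h | h
        · exact absurd h hnot
        · have : ω - 1 + 1 = ω := by omega
          rwa [this] at h
      by_cases hcase : ∃ T ⊆ S', (∀ a ∈ T, ∀ b ∈ T, a ≠ b → G'.Adj a b) ∧ T.card = ω ∧ y ∈ T
      · obtain ⟨T, hT1, hT2, hT3, hyT⟩ := hcase
        by_cases hlt : ω + 1 ≤ k
        · left
          obtain ⟨c, h1, h2⟩ := hωc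
          refine Col.mono (k := ω + 1) ⟨fun z => if z = x then ω else c z, ?_, ?_⟩ hlt
          · intro z hz
            dsimp only
            split_ifs with h
            · omega
            · have := h1 z (Finset.mem_erase.2 ⟨h, hz⟩)
              omega
          · intro a ha b hb hab
            dsimp only
            by_cases hax : a = x
            · rw [if_pos hax]
              have hbx : b ≠ x := fun h => G'.ne_of_adj hab (hax.trans h.symm)
              rw [if_neg hbx]
              have := h1 b (Finset.mem_erase.2 ⟨hbx, hb⟩)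
              omega
            · rw [if_neg hax]
              by_cases hbx : b = x
              · rw [if_pos hbx]
                have := h1 a (Finset.mem_erase.2 ⟨hax, ha⟩)
                omega
              · rw [if_neg hbx]
                exact h2 a (Finset.mem_erase.2 ⟨hax, ha⟩) b (Finset.mem_erase.2 ⟨hbx, hb⟩) hab
        · right
          have hωk' : ω = k := by omega
          have hxT : x ∉ T := fun h => (Finset.mem_erase.1 (hT1 h)).1 rfl
          refine ⟨insert x T, ?_, ?_, ?_⟩
          · intro z hz
            rcases Finset.mem_insert.1 hz with rfl | h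
            · exact hx
            · exact hS'S (hT1 h)
          · have hx' : ∀ b ∈ T, G'.Adj x b := by
              intro b hb
              by_cases hby : y = b
              · rw [← hby]; exact hadjxy
              · have hbx : x ≠ b := fun h => hxT (h ▸ hb)
                exact (twin hπ hxy hbx hby).2 (hT2 y hyT b hb hby)
            intro a ha b hb hab
            rcases Finset.mem_insert.1 ha with ha2 | ha2
            · rcases Finset.mem_insert.1 hb with hb2 | hb2
              · exact absurd (ha2.trans hb2.symm) hab
              · rw [ha2]; exact hx' b hb2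
            · rcases Finset.mem_insert.1 hb with hb2 | hb2
              · rw [hb2]; exact (hx' a ha2).symm
              · exact hT2 a ha2 b hb2 hab
          · rw [Finset.card_insert_of_notMem hxT, hT3, hωk']
      · left
        obtain ⟨c, h1, h2⟩ := hωc
        set H := S'.filter (fun z => c z ≠ c y ∨ z = y) with hH
        have hHS' : H ⊆ S' := Finset.filter_subset _ _
        have hnoclq : ¬ Clq G' H ω := by
          rintro ⟨T, hT1, hT2, hT3⟩
          have hyT : y ∉ T := fun h => hcase ⟨T, hT1.trans hHS', hT2, hT3, h⟩
          have hmaps : ∀ z ∈ T, c z ∈ (Finset.range ω).erase (c y) := by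
            intro z hz
            have hz1 := Finset.mem_filter.1 (hT1 hz)
            rw [Finset.mem_erase, Finset.mem_range]
            refine ⟨?_, h1 z hz1.1⟩
            rcases hz1.2 with h | h
            · exact h
            · exact absurd (h ▸ hz) hyT
          have hle : T.card ≤ ((Finset.range ω).erase (c y)).card := by
            refine Finset.card_le_card_of_injOn c hmaps ?_
            intro a ha b hb hab
            by_contra hne'
            exact h2 a (hHS' (hT1 ha)) b (hHS' (hT1 hb)) (hT2 a ha b hb hne') hab
          rw [Finset.card_erase_of_mem (Finset.mem_range.2 (h1 y hyS')), Finset.card_range,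
            hT3] at hle
          omega
        have hHcol : Col G' H (ω - 1) := by
          rcases ih H ((Finset.card_le_card hHS').trans hcard') (ω - 1) with h | h
          · exact h
          · have : ω - 1 + 1 = ω := by omega
            rw [this] at h
            exact absurd h hnoclq
        obtain ⟨d, d1, d2⟩ := hHcol
        have hmemH : ∀ z ∈ S, ¬ (z = x ∨ (z ≠ y ∧ c z = c y)) → z ∈ H := by
          intro z hz hn
          push Not at hn
          rw [hH, Finset.mem_filter]
          refine ⟨Finset.mem_erase.2 ⟨hn.1, hz⟩, ?_⟩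
          by_cases hzy : z = y
          · exact Or.inr hzy
          · exact Or.inl (hn.2 hzy)
        refine Col.mono (k := ω) ⟨fun z => if z = x ∨ (z ≠ y ∧ c z = c y) then ω - 1 else d z,
          ?_, ?_⟩ hωk
        · intro z hz
          dsimp only
          split_ifs with h
          · omega
          · have := d1 z (hmemH z hz h)
            omega
        · -- properness
          have hspec : ∀ b ∈ S, (b = x ∨ (b ≠ y ∧ c b = c y)) → ∀ a ∈ S,
              (a = x ∨ (a ≠ y ∧ c a = c y)) → ¬ G'.Adj a b := by
            intro b hb hb' a ha ha' hab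
            have hne2 := G'.ne_of_adj hab
            rcases ha' with rfl | ⟨hay, hac⟩
            · rcases hb' with rfl | ⟨hby, hbc⟩
              · exact hne2 rfl
              · have h5 := (twin hπ hxy hne2 (Ne.symm hby)).1 hab
                exact h2 y hyS' b (Finset.mem_erase.2 ⟨hne2.symm, hb⟩) h5 hbc.symm
            · rcases hb' with rfl | ⟨hby, hbc⟩
              · have h5 := (twin hπ hxy hne2.symm (Ne.symm hay)).1 hab.symm
                exact h2 y hyS' a (Finset.mem_erase.2 ⟨hne2, ha⟩) h5 hac.symm
              · by_cases hax : a = x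
                · subst hax
                  by_cases hbx : b = a
                  · exact hne2 hbx.symm
                  · have h5 := (twin hπ hxy hne2 (Ne.symm hby)).1 hab
                    exact h2 y hyS' b (Finset.mem_erase.2 ⟨hbx, hb⟩) h5 hbc.symm
                · by_cases hbx : b = x
                  · subst hbx
                    have h5 := (twin hπ hxy hne2.symm (Ne.symm hay)).1 hab.symm
                    exact h2 y hyS' a (Finset.mem_erase.2 ⟨hax, ha⟩) h5 hac.symm
                  · exact h2 a (Finset.mem_erase.2 ⟨hax, ha⟩) b (Finset.mem_erase.2 ⟨hbx, hb⟩)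
                      hab (hac.trans hbc.symm)
          intro a ha b hb hab
          dsimp only
          by_cases haX : a = x ∨ (a ≠ y ∧ c a = c y)
          · by_cases hbX : b = x ∨ (b ≠ y ∧ c b = c y)
            · exact absurd hab (hspec b hb hbX a ha haX)
            · rw [if_pos haX, if_neg hbX]
              have := d1 b (hmemH b hb hbX)
              omega
          · rw [if_neg haX]
            by_cases hbX : b = x ∨ (b ≠ y ∧ c b = c y)
            · rw [if_pos hbX]
              have := d1 a (hmemH a ha haX)
              omega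
            · rw [if_neg hbX]
              exact d2 a (hmemH a ha haX) b (hmemH b hb hbX) hab

theorem perf_inj {V V' : Type} (G : SimpleGraph V)
    (G' : SimpleGraph V') (π : V' → V) (hπ : IsInfl G G' π) (hG : Perfect G)
    (S : Finset V') (hS : Set.InjOn π S) (k : ℕ) : Col G' S k ∨ Clq G' S (k + 1) := by
  classical
  have hadj : ∀ x ∈ S, ∀ y ∈ S, x ≠ y → (G'.Adj x y ↔ G.Adj (π x) (π y)) := by
    intro x hx y hy hxy
    rw [hπ x y hxy]
    constructor
    · rintro (h | h)
      · exact absurd (hS hx hy h) hxy
      · exact h
    · exact Or.inr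
  by_cases hfree : (G.induce (π '' S)).CliqueFree (k + 1)
  · left
    obtain ⟨C⟩ := hG _ k hfree
    refine ⟨fun x => if h : x ∈ S then (C ⟨π x, ⟨x, h, rfl⟩⟩ : Fin k).val else 0, ?_, ?_⟩
    · intro x hx
      dsimp only
      rw [dif_pos hx]
      exact Fin.is_lt _
    · intro x hx y hy hxy
      dsimp only
      rw [dif_pos hx, dif_pos hy]
      intro h
      have h2 : (G.induce (π '' S)).Adj ⟨π x, ⟨x, hx, rfl⟩⟩ ⟨π y, ⟨y, hy, rfl⟩⟩ :=
        (hadj x hx y hy (G'.ne_of_adj hxy)).1 hxy
      exact C.valid h2 (Fin.ext h)
  · right
    rw [SimpleGraph.CliqueFree] at hfree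
    push Not at hfree
    obtain ⟨T, hT⟩ := hfree
    rw [SimpleGraph.isNClique_iff] at hT
    obtain ⟨hT1, hT2⟩ := hT
    choose g hg1 hg2 using fun t : (π '' (S : Set V')) => t.2
    refine ⟨T.image g, ?_, ?_, ?_⟩
    · intro z hz
      obtain ⟨t, _, rfl⟩ := Finset.mem_image.1 hz
      exact hg1 t
    · intro a ha b hb hab
      obtain ⟨t, ht, rfl⟩ := Finset.mem_image.1 ha
      obtain ⟨u, hu, rfl⟩ := Finset.mem_image.1 hb
      have htu : t ≠ u := fun h => hab (by rw [h])
      rw [hadj _ (hg1 t) _ (hg1 u) hab, hg2, hg2]
      exact hT1 ht hu htu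
    · rw [Finset.card_image_of_injective, hT2]
      intro t u htu
      apply Subtype.ext
      rw [← hg2 t, ← hg2 u, htu]

/-- Clique inflations of perfect graphs satisfy Hadwiger's conjecture. -/
theorem perfect_had {V V' : Type} [Finite V'] (G : SimpleGraph V) (G' : SimpleGraph V')
    (π : V' → V) (hπ : IsInfl G G' π) (hG : Perfect G) : Had G' := by
  classical
  have : Fintype V' := Fintype.ofFinite _
  intro k hk
  rcases lov G G' π hπ (perf_inj G G' π hπ hG) _ Finset.univ le_rfl k with h | h
  · exfalso
    apply hk
    obtain ⟨c, h1, h2⟩ := h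
    refine ⟨SimpleGraph.Coloring.mk (fun x => (⟨c x, h1 x (Finset.mem_univ _)⟩ : Fin k)) ?_⟩
    intro x y hxy h
    exact h2 x (Finset.mem_univ _) y (Finset.mem_univ _) hxy (Fin.mk.inj_iff.1 h)
  · obtain ⟨T, _, hT2, hT3⟩ := h
    exact CMt_clique G' T hT2 hT3.ge

end Pool.Agent.R553.HW
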